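import Mathlib

set_option autoImplicit false

namespace Pool.Agent.Results.MP_6eafb7_an.AllPositive

open PowerSeries

/-- The generalized (Norlund) Bernoulli polynomial `B_m^{(a)}(x)` of integer order `a ≥ 0`:
`m!` times the coefficient of `t^m` in `(t/(e^t-1))^a e^{xt}`. -/
noncomputable def B (a m : ℕ) (x : ℝ) : ℝ :=
  (m.factorial : ℝ) *
    coeff m ((bernoulliPowerSeries ℝ) ^ a * rescale x (PowerSeries.exp ℝ))

/-- `α_{n,k}(x)` -/
noncomputable def alpha (n k : ℕ) (x : ℝ) : ℝ :=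
  (-1) ^ k * ∑ j ∈ Finset.range (2 * k + 1), (-1) ^ j * (n.choose j : ℝ) *
    (n.choose (2 * k - j) : ℝ) * B n (n - j) x * B n (n - 2 * k + j) x

/-- `β_{n,k}(x)` -/
noncomputable def beta (n k : ℕ) (x : ℝ) : ℝ :=
  (-1) ^ k * ∑ j ∈ Finset.range (2 * k + 1), (-1) ^ j * (n.choose j : ℝ) *
    (n.choose (2 * k - j) : ℝ) * B n j x * B n (2 * k - j) x

section series

/-- `t/(e^t-1)` -/
noncomputable abbrev G : PowerSeries ℝ := bernoulliPowerSeries ℝ

/-- `(t/(e^t-1))^a e^{xt}` -/
noncomputable def F (a : ℕ) (x : ℝ) : PowerSeries ℝ := G ^ a * rescale x (PowerSeries.exp ℝ)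

lemma B_eq (a m : ℕ) (x : ℝ) : B a m x = (m.factorial : ℝ) * coeff m (F a x) := rfl

lemma G_exp : G * (PowerSeries.exp ℝ - 1) = X := bernoulliPowerSeries_mul_exp_sub_one ℝ

lemma G_ode : X * derivative ℝ G = G - G ^ 2 - X * G := by
  have h1 := G_exp
  have h2 := congrArg (derivative ℝ) h1
  rw [Derivation.leibniz, derivative_X, map_sub, derivative_exp, derivative_one, sub_zero,
    smul_eq_mul, smul_eq_mul] at h2
  have h3 : G * PowerSeries.exp ℝ = G + X := by rw [← h1]; ring
  calc X * derivative ℝ G = (G * (PowerSeries.exp ℝ - 1)) * derivative ℝ G := by rw [h1]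
    _ = G * (G * PowerSeries.exp ℝ + (PowerSeries.exp ℝ - 1) * derivative ℝ G)
          - G * (G * PowerSeries.exp ℝ) := by ring
    _ = G - G ^ 2 - X * G := by rw [h2, h3]; ring

lemma G_pow_ode (n : ℕ) : X * derivative ℝ (G ^ (n + 1)) =
    ((n + 1 : ℕ) : PowerSeries ℝ) * (G ^ (n + 1) - G ^ (n + 2) - X * G ^ (n + 1)) := by
  rw [Derivation.leibniz_pow]
  simp only [Nat.add_sub_cancel, smul_eq_mul, nsmul_eq_mul]
  calc X * (((n + 1 : ℕ) : PowerSeries ℝ) * (G ^ n * derivative ℝ G))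
      = ((n + 1 : ℕ) : PowerSeries ℝ) * (G ^ n * (X * derivative ℝ G)) := by ring
    _ = _ := by rw [G_ode]; ring

lemma derivative_rescale (x : ℝ) : derivative ℝ (rescale x (PowerSeries.exp ℝ)) =
    C x * rescale x (PowerSeries.exp ℝ) := by
  ext n
  rw [coeff_derivative, coeff_C_mul, coeff_rescale, coeff_rescale]
  have h := congrArg (coeff n) (derivative_exp ℝ)
  rw [coeff_derivative] at h
  rw [← h, pow_succ]
  ring

lemma F_ode (n : ℕ) (x : ℝ) : ((n + 1 : ℕ) : PowerSeries ℝ) * F (n + 2) x =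
    ((n + 1 : ℕ) : PowerSeries ℝ) * F (n + 1) x
      - ((n + 1 : ℕ) : PowerSeries ℝ) * (X * F (n + 1) x)
      - X * derivative ℝ (F (n + 1) x) + C x * (X * F (n + 1) x) := by
  have h := G_pow_ode n
  have hD : derivative ℝ (F (n + 1) x) = derivative ℝ (G ^ (n + 1)) *
      rescale x (PowerSeries.exp ℝ) + G ^ (n + 1) * (C x * rescale x (PowerSeries.exp ℝ)) := by
    unfold F
    rw [Derivation.leibniz, derivative_rescale, smul_eq_mul, smul_eq_mul]
    ring
  rw [hD]
  have h2 : X * (derivative ℝ (G ^ (n + 1)) * rescale x (PowerSeries.exp ℝ) +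
      G ^ (n + 1) * (C x * rescale x (PowerSeries.exp ℝ)))
      = (X * derivative ℝ (G ^ (n + 1))) * rescale x (PowerSeries.exp ℝ)
        + C x * (X * (G ^ (n + 1) * rescale x (PowerSeries.exp ℝ))) := by ring
  rw [h2, h]
  unfold F
  ring

lemma coeff_nat_mul (k n : ℕ) (f : PowerSeries ℝ) :
    coeff n ((k : PowerSeries ℝ) * f) = (k : ℝ) * coeff n f := by
  have : ((k : ℕ) : PowerSeries ℝ) = C (k : ℝ) := by simp
  rw [this, coeff_C_mul]

lemma B_rec (n : ℕ) (x : ℝ) : B (n + 2) (n + 1) x = (x - (n + 1)) * B (n + 1) n x := by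
  have h := congrArg (coeff (n + 1)) (F_ode n x)
  rw [map_add, map_sub, map_sub, coeff_nat_mul, coeff_nat_mul, coeff_nat_mul,
    coeff_succ_X_mul, coeff_succ_X_mul, coeff_derivative, coeff_C_mul, coeff_succ_X_mul] at h
  rw [B_eq, B_eq, Nat.factorial_succ]
  push_cast at h ⊢
  linear_combination (n.factorial : ℝ) * h

lemma B_one_zero (a : ℕ) (x : ℝ) : B a 0 x = 1 := by
  rw [B_eq]
  unfold F
  rw [coeff_zero_eq_constantCoeff, map_mul, map_pow]
  have h1 : constantCoeff (R := ℝ) G = 1 := by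
    rw [← coeff_zero_eq_constantCoeff_apply]
    simp [bernoulliPowerSeries]
  have h2 : constantCoeff (R := ℝ) (rescale x (PowerSeries.exp ℝ)) = 1 := by
    rw [← coeff_zero_eq_constantCoeff_apply, coeff_rescale]
    simp
  rw [h1, h2]
  simp

lemma B_prod (n : ℕ) (x : ℝ) : B (n + 1) n x = ∏ i ∈ Finset.range n, (x - (i + 1)) := by
  induction n with
  | zero => rw [B_one_zero]; simp
  | succ n ih => rw [B_rec, ih, Finset.prod_range_succ, mul_comm]

lemma rescale_add (x y : ℝ) : rescale (x + y) (PowerSeries.exp ℝ) =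
    rescale x (PowerSeries.exp ℝ) * rescale y (PowerSeries.exp ℝ) :=
  (exp_mul_exp_eq_exp_add x y).symm

lemma B_diff (n m : ℕ) (x : ℝ) :
    B (n + 1) (m + 1) (x + 1) - B (n + 1) (m + 1) x = (m + 1) * B n m x := by
  have h : F (n + 1) (x + 1) - F (n + 1) x = X * F n x := by
    unfold F
    rw [rescale_add, rescale_one, RingHom.id_apply]
    calc G ^ (n + 1) * (rescale x (PowerSeries.exp ℝ) * PowerSeries.exp ℝ)
          - G ^ (n + 1) * rescale x (PowerSeries.exp ℝ)
        = (G * (PowerSeries.exp ℝ - 1)) * (G ^ n * rescale x (PowerSeries.exp ℝ)) := by ring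
      _ = _ := by rw [G_exp]
  have h2 := congrArg (coeff (m + 1)) h
  rw [map_sub, coeff_succ_X_mul] at h2
  rw [B_eq, B_eq, B_eq, Nat.factorial_succ]
  push_cast
  linear_combination ((m : ℝ) + 1) * (m.factorial : ℝ) * h2

lemma B_trans (a m : ℕ) (x y : ℝ) :
    B a m (x + y) = ∑ r ∈ Finset.range (m + 1), (m.choose r : ℝ) * B a (m - r) x * y ^ r := by
  have h : F a (x + y) = rescale y (PowerSeries.exp ℝ) * F a x := by
    unfold F
    rw [rescale_add]
    ring
  rw [B_eq, h, coeff_mul, Finset.Nat.sum_antidiagonal_eq_sum_range_succ_mk, Finset.mul_sum]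
  refine Finset.sum_congr rfl fun r hr => ?_
  have hr' : r ≤ m := Nat.lt_succ_iff.1 (Finset.mem_range.1 hr)
  rw [coeff_rescale, coeff_exp, B_eq]
  have hc : (m.choose r : ℝ) * (r.factorial : ℝ) * ((m - r).factorial : ℝ)
      = (m.factorial : ℝ) := by exact_mod_cast Nat.choose_mul_factorial_mul_factorial hr'
  have hr0 : (r.factorial : ℝ) ≠ 0 := by positivity
  simp only [map_div₀, map_one, map_natCast]
  rw [← hc]
  field_simp

lemma B_hasDerivAt (a m : ℕ) (x : ℝ) :
    HasDerivAt (B a (m + 1)) ((m + 1) * B a m x) x := by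
  have h1 : HasDerivAt (fun y : ℝ => ∑ r ∈ Finset.range (m + 1 + 1),
      ((m + 1).choose r : ℝ) * B a (m + 1 - r) x * y ^ r)
      (∑ r ∈ Finset.range (m + 1 + 1), ((m + 1).choose r : ℝ) * B a (m + 1 - r) x *
        ((r : ℝ) * (0 : ℝ) ^ (r - 1))) 0 := by
    refine HasDerivAt.fun_sum fun r _ => ?_
    exact (hasDerivAt_pow r 0).const_mul _
  have h2 : (∑ r ∈ Finset.range (m + 1 + 1), ((m + 1).choose r : ℝ) * B a (m + 1 - r) x *
        ((r : ℝ) * (0 : ℝ) ^ (r - 1))) = (m + 1) * B a m x := by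
    rw [Finset.sum_eq_single 1]
    · simp
    · intro r _ hr
      rcases Nat.eq_zero_or_pos r with h | h
      · subst h; simp
      · have : r - 1 ≠ 0 := by omega
        rw [zero_pow this]; simp
    · intro h; simp at h
  rw [h2] at h1
  have h3 : (fun y : ℝ => ∑ r ∈ Finset.range (m + 1 + 1),
      ((m + 1).choose r : ℝ) * B a (m + 1 - r) x * y ^ r) = fun y => B a (m + 1) (x + y) := by
    funext y
    rw [B_trans]
  rw [h3] at h1
  have h4 : HasDerivAt (fun z : ℝ => B a (m + 1) (x + (z + -x))) ((m + 1) * B a m x) x :=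
    HasDerivAt.comp_add_const (f := fun y => B a (m + 1) (x + y)) x (-x)
      (by rw [add_neg_cancel]; exact h1)
  refine h4.congr_of_eventuallyEq (Filter.Eventually.of_forall fun z => ?_)
  simp

end series

section roots

lemma B_cont (a m : ℕ) : Continuous (B a m) := by
  cases m with
  | zero =>
    have : B a 0 = fun _ => 1 := funext (B_one_zero a)
    rw [this]
    exact continuous_const
  | succ m => exact continuous_iff_continuousAt.2 fun x => (B_hasDerivAt a m x).continuousAt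

/-- the value of `B_n^{(n)}` at `j` is a value of `(c-1)...(c-n)` for some `c` in `(j, j+1)` -/
lemma B_mvt (n : ℕ) (x : ℝ) : ∃ c ∈ Set.Ioo x (x + 1),
    B n n x = ∏ i ∈ Finset.range n, (c - (i + 1)) := by
  obtain ⟨c, hc, h⟩ := exists_hasDerivAt_eq_slope (B (n + 1) (n + 1))
    (fun y => (n + 1) * B (n + 1) n y) (show x < x + 1 by linarith)
    (B_cont _ _).continuousOn (fun y _ => B_hasDerivAt (n + 1) n y)
  refine ⟨c, hc, ?_⟩
  rw [B_diff, B_prod] at h
  have hn : ((n : ℝ) + 1) ≠ 0 := by positivity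
  have h2 : x + 1 - x = 1 := by ring
  rw [h2, div_one] at h
  exact (mul_left_cancel₀ hn h).symm

lemma prod_sign (n j : ℕ) (hj : j ≤ n) (c : ℝ) (hc : c ∈ Set.Ioo (j : ℝ) (j + 1)) :
    0 < (-1) ^ (n - j) * ∏ i ∈ Finset.range n, (c - (i + 1)) := by
  obtain ⟨l, rfl⟩ := Nat.exists_eq_add_of_le hj
  rw [Finset.prod_range_add, Nat.add_sub_cancel_left]
  have h1 : 0 < ∏ i ∈ Finset.range j, (c - (i + 1)) := by
    refine Finset.prod_pos fun i hi => ?_
    have hi' : ((i : ℝ) + 1) ≤ j := by exact_mod_cast Finset.mem_range.1 hi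
    linarith [hc.1]
  have h2 : 0 < (-1) ^ l * ∏ i ∈ Finset.range l, (c - (((j + i : ℕ) : ℝ) + 1)) := by
    have : (-1) ^ l * ∏ i ∈ Finset.range l, (c - (((j + i : ℕ) : ℝ) + 1))
        = ∏ i ∈ Finset.range l, ((((j + i : ℕ) : ℝ) + 1) - c) := by
      rw [← Finset.card_range l, ← Finset.prod_const, Finset.card_range, ← Finset.prod_mul_distrib]
      refine Finset.prod_congr rfl fun i _ => by ring
    rw [this]
    refine Finset.prod_pos fun i _ => ?_
    push_cast
    have : (0 : ℝ) ≤ i := Nat.cast_nonneg i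
    linarith [hc.2]
  calc (0 : ℝ) < (∏ i ∈ Finset.range j, (c - (i + 1))) *
        ((-1) ^ l * ∏ i ∈ Finset.range l, (c - (((j + i : ℕ) : ℝ) + 1))) := mul_pos h1 h2
    _ = _ := by ring

lemma B_sign (n j : ℕ) (hj : j ≤ n) : 0 < (-1) ^ (n - j) * B n n j := by
  obtain ⟨c, hc, h⟩ := B_mvt n j
  rw [h]
  exact prod_sign n j hj c hc

lemma exists_root (n j : ℕ) (hj : j < n) : ∃ z ∈ Set.Ioo (j : ℝ) (j + 1), B n n z = 0 := by
  have h1 := B_sign n j hj.le
  have h2 := B_sign n (j + 1) hj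
  push_cast at h2
  have hcont : ContinuousOn (B n n) (Set.Icc (j : ℝ) (j + 1)) := (B_cont n n).continuousOn
  have hle : (j : ℝ) ≤ j + 1 := by linarith
  obtain ⟨l, hl⟩ : ∃ l, n - j = l + 1 := ⟨n - j - 1, by omega⟩
  have hl2 : n - (j + 1) = l := by omega
  rw [hl, pow_succ] at h1
  rw [hl2] at h2
  rcases neg_one_pow_eq_or ℝ l with h | h
  · rw [h] at h1 h2
    have ha : B n n j < 0 := by linarith
    have hb : 0 < B n n (j + 1) := by linarith
    obtain ⟨z, hz, hz0⟩ := intermediate_value_Ioo hle hcont ⟨ha, hb⟩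
    exact ⟨z, hz, hz0⟩
  · rw [h] at h1 h2
    have ha : 0 < B n n j := by linarith
    have hb : B n n (j + 1) < 0 := by linarith
    obtain ⟨z, hz, hz0⟩ := intermediate_value_Ioo' hle hcont ⟨hb, ha⟩
    exact ⟨z, hz, hz0⟩

end roots

section poly

open Polynomial

/-- the Taylor expansion of `B_n^{(n)}` at `x` -/
noncomputable def T (n : ℕ) (x : ℝ) : Polynomial ℝ :=
  ∑ r ∈ Finset.range (n + 1), Polynomial.C ((n.choose r : ℝ) * B n (n - r) x) * Polynomial.X ^ r

lemma T_coeff (n : ℕ) (x : ℝ) (r : ℕ) :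
    (T n x).coeff r = (n.choose r : ℝ) * B n (n - r) x := by
  unfold T
  rw [Polynomial.finsetSum_coeff]
  simp only [Polynomial.coeff_C_mul, Polynomial.coeff_X_pow, mul_ite, mul_one, mul_zero]
  rw [Finset.sum_ite_eq]
  split_ifs with h
  · rfl
  · rw [Finset.mem_range, not_lt] at h
    rw [Nat.choose_eq_zero_of_lt h]
    simp

lemma T_eval (n : ℕ) (x y : ℝ) : (T n x).eval y = B n n (x + y) := by
  unfold T
  rw [B_trans, Polynomial.eval_finsetSum]
  simp

lemma T_factor (n : ℕ) (x : ℝ) : ∃ y : ℕ → ℝ,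
    T n x = ∏ j ∈ Finset.range n, (Polynomial.X - Polynomial.C (y j)) := by
  have hex : ∀ j : ℕ, ∃ z : ℝ, j < n → z ∈ Set.Ioo (j : ℝ) (j + 1) ∧ B n n z = 0 := by
    intro j
    by_cases hj : j < n
    · obtain ⟨z, hz, hz0⟩ := exists_root n j hj
      exact ⟨z, fun _ => ⟨hz, hz0⟩⟩
    · exact ⟨0, fun h => absurd h hj⟩
  choose z hz using hex
  refine ⟨fun j => z j - x, ?_⟩
  set P : Polynomial ℝ := ∏ j ∈ Finset.range n, (Polynomial.X - Polynomial.C (z j - x)) with hP
  have hPm : P.Monic := Polynomial.monic_prod_of_monic _ _ fun j _ => Polynomial.monic_X_sub_C _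
  have hPd : P.degree = n := by
    rw [hP, Polynomial.degree_prod]
    simp only [Polynomial.degree_X_sub_C]
    simp
  have hTn : (T n x).coeff n = 1 := by
    rw [T_coeff]
    simp [B_one_zero]
  have hTd : (T n x).degree ≤ n := by
    rw [Polynomial.degree_le_iff_coeff_zero]
    intro m hm
    rw [T_coeff, Nat.choose_eq_zero_of_lt (by exact_mod_cast hm)]
    simp
  have hlt : (T n x - P).degree < n := by
    rw [Polynomial.degree_lt_iff_coeff_zero]
    intro m hm
    rw [Polynomial.coeff_sub]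
    rcases Nat.eq_or_lt_of_le hm with h | h
    · rw [← h, hTn]
      have : P.coeff n = 1 := by
        have h2 := hPm.coeff_natDegree
        rwa [Polynomial.natDegree_eq_of_degree_eq_some hPd] at h2
      rw [this, sub_self]
    · rw [T_coeff, Nat.choose_eq_zero_of_lt h, Polynomial.coeff_eq_zero_of_degree_lt]
      · simp
      · rw [hPd]; exact_mod_cast h
  have hinj : Set.InjOn (fun j => z j - x) (Finset.range n : Set ℕ) := by
    intro i hi j hj hij
    simp only [Finset.coe_range, Set.mem_Iio] at hi hj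
    have h1 := (hz i hi).1
    have h2 := (hz j hj).1
    have h3 : z i = z j := by simpa using hij
    rw [h3] at h1
    by_contra hne
    rcases Nat.lt_or_gt_of_ne hne with h | h
    · have : ((i : ℝ) + 1) ≤ j := by exact_mod_cast h
      linarith [h1.2, h2.1]
    · have : ((j : ℝ) + 1) ≤ i := by exact_mod_cast h
      linarith [h1.1, h2.2]
  refine Polynomial.eq_of_degree_sub_lt_of_eval_finset_eq
    ((Finset.range n).image fun j => z j - x) ?_ ?_
  · rw [Finset.card_image_of_injOn hinj, Finset.card_range]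
    exact hlt
  · intro w hw
    obtain ⟨j, hj, rfl⟩ := Finset.mem_image.1 hw
    have hj' := Finset.mem_range.1 hj
    rw [T_eval, hP, Polynomial.eval_prod]
    rw [Finset.prod_eq_zero hj (by simp)]
    have : x + (z j - x) = z j := by ring
    rw [this, (hz j hj').2]

/-- coefficients of `∏ (y_j² - X²)` -/
lemma prod_pos' (y : ℕ → ℝ) (n k : ℕ) :
    0 ≤ (-1) ^ k * (∏ j ∈ Finset.range n,
      (Polynomial.C (y j ^ 2) - Polynomial.X ^ 2 : Polynomial ℝ)).coeff (2 * k) := by
  induction n generalizing k with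
  | zero =>
    rcases Nat.eq_zero_or_pos k with h | h
    · subst h; simp
    · rw [Finset.range_zero, Finset.prod_empty, Polynomial.coeff_one, if_neg (by omega)]
      simp
  | succ n ih =>
    rw [Finset.prod_range_succ, mul_comm _ (Polynomial.C (y n ^ 2) - Polynomial.X ^ 2), sub_mul,
      Polynomial.coeff_sub, Polynomial.coeff_C_mul]
    rcases Nat.eq_zero_or_pos k with h | h
    · subst h
      have h1 := ih 0
      rw [mul_zero] at h1 ⊢
      rw [Polynomial.coeff_X_pow_mul']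
      simp only [pow_zero, one_mul] at h1 ⊢
      rw [if_neg (by norm_num), sub_zero]
      exact mul_nonneg (sq_nonneg _) h1
    · obtain ⟨m, rfl⟩ : ∃ m, k = m + 1 := ⟨k - 1, by omega⟩
      have h1 := ih (m + 1)
      have h2 := ih m
      have h3 : 2 * (m + 1) = 2 * m + 2 := by ring
      rw [h3, mul_comm (Polynomial.X ^ 2), Polynomial.coeff_mul_X_pow]
      rw [h3] at h1
      rw [mul_sub]
      have h4 : 0 ≤ y n ^ 2 * ((-1) ^ (m + 1) * (∏ j ∈ Finset.range n,
        (Polynomial.C (y j ^ 2) - Polynomial.X ^ 2 : Polynomial ℝ)).coeff (2 * m + 2)) :=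
        mul_nonneg (sq_nonneg _) h1
      have h5 : (-1 : ℝ) ^ (m + 1) = - (-1) ^ m := by rw [pow_succ]; ring
      rw [h5] at h4 ⊢
      linarith

lemma key (n : ℕ) (x : ℝ) (k : ℕ) :
    0 ≤ (-1) ^ k * ∑ i ∈ Finset.range (2 * k + 1),
      (-1) ^ i * (T n x).coeff i * (T n x).coeff (2 * k - i) := by
  obtain ⟨y, hy⟩ := T_factor n x
  have h1 := prod_pos' y n k
  have h2 : (∏ j ∈ Finset.range n, (Polynomial.C (y j ^ 2) - Polynomial.X ^ 2 : Polynomial ℝ))
      = (T n x).comp (-Polynomial.X) * T n x := by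
    rw [hy, Polynomial.prod_comp, ← Finset.prod_mul_distrib]
    refine Finset.prod_congr rfl fun j _ => ?_
    rw [Polynomial.sub_comp, Polynomial.X_comp, Polynomial.C_comp, Polynomial.C_pow]
    ring
  have hcoef : ∀ i, ((T n x).comp (-Polynomial.X)).coeff i = (-1) ^ i * (T n x).coeff i := by
    intro i
    have h3 : (-Polynomial.X : Polynomial ℝ) = Polynomial.C (-1) * Polynomial.X := by simp
    rw [h3, Polynomial.comp_C_mul_X_coeff, mul_comm]
  rw [h2, Polynomial.coeff_mul, Finset.Nat.sum_antidiagonal_eq_sum_range_succ_mk] at h1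
  simp only [hcoef] at h1
  exact h1

lemma alpha_nonneg (n k : ℕ) (x : ℝ) (hk : 2 * k ≤ n) : 0 ≤ alpha n k x := by
  have h := key n x k
  unfold alpha
  have h2 : ∑ j ∈ Finset.range (2 * k + 1), (-1) ^ j * (n.choose j : ℝ) *
      (n.choose (2 * k - j) : ℝ) * B n (n - j) x * B n (n - 2 * k + j) x
      = ∑ i ∈ Finset.range (2 * k + 1),
        (-1) ^ i * (T n x).coeff i * (T n x).coeff (2 * k - i) := by
    refine Finset.sum_congr rfl fun j hj => ?_
    have hj' : j ≤ 2 * k := Nat.lt_succ_iff.1 (Finset.mem_range.1 hj)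
    rw [T_coeff, T_coeff]
    have h3 : n - (2 * k - j) = n - 2 * k + j := by omega
    rw [h3]
    ring
  rw [h2]
  exact h

lemma beta_nonneg (n k : ℕ) (x : ℝ) (hk : 2 * k ≤ n) : 0 ≤ beta n k x := by
  have h := key n x (n - k)
  unfold beta
  have h2 : ∑ i ∈ Finset.range (2 * (n - k) + 1),
        (-1) ^ i * (T n x).coeff i * (T n x).coeff (2 * (n - k) - i)
      = (-1) ^ n * ∑ j ∈ Finset.range (2 * k + 1), (-1) ^ j * (n.choose j : ℝ) *
      (n.choose (2 * k - j) : ℝ) * B n j x * B n (2 * k - j) x := by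
    rw [Finset.mul_sum]
    symm
    refine Finset.sum_of_injOn (fun j => n - j) ?_ ?_ ?_ ?_
    · intro i hi j hj hij
      simp only [Finset.coe_range, Set.mem_Iio] at hi hj hij
      omega
    · intro j hj
      simp only [Finset.coe_range, Set.mem_Iio] at hj ⊢
      omega
    · intro i hi hi'
      simp only [Finset.mem_range, Finset.coe_range, Set.mem_image, Set.mem_Iio] at hi hi'
      rw [T_coeff, T_coeff]
      by_cases h1 : n < i
      · rw [Nat.choose_eq_zero_of_lt h1]; simp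
      · have h3 : n < 2 * (n - k) - i := by
          by_contra h4
          exact hi' ⟨n - i, by omega, by omega⟩
        rw [Nat.choose_eq_zero_of_lt h3]; simp
    · intro j hj
      have hj' : j ≤ 2 * k := Nat.lt_succ_iff.1 (Finset.mem_range.1 hj)
      rw [T_coeff, T_coeff]
      have e1 : n - (n - j) = j := by omega
      have e2 : 2 * (n - k) - (n - j) = n - (2 * k - j) := by omega
      have e3 : n - (n - (2 * k - j)) = 2 * k - j := by omega
      have e4 : (-1 : ℝ) ^ n * (-1) ^ j = (-1) ^ (n - j) := by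
        obtain ⟨l, rfl⟩ : ∃ l, n = l + j := ⟨n - j, by omega⟩
        rw [Nat.add_sub_cancel, pow_add, mul_assoc, ← pow_add, ← two_mul, pow_mul]
        simp
      rw [e1, e2, e3, Nat.choose_symm (show j ≤ n by omega),
        Nat.choose_symm (show 2 * k - j ≤ n by omega), ← e4]
      ring
  rw [h2, ← mul_assoc, ← pow_add] at h
  have e5 : (-1 : ℝ) ^ (n - k + n) = (-1) ^ k := by
    have : n - k + n = 2 * (n - k) + k := by omega
    rw [this, pow_add, pow_mul]
    simp
  rw [e5] at h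
  exact h

end poly

/-- **Positivity of the convolution sums.**  For every `n ≥ 1` and every real `x`,
`α_{n,k}(x) ≥ 0` for all `k` with `1 ≤ 2k ≤ n`, and `β_{n,k}(x) ≥ 0` for all `k` with
`0 ≤ 2k ≤ n - 1`. -/
theorem result : ∀ n : ℕ, 1 ≤ n → ∀ x : ℝ,
    (∀ k : ℕ, 1 ≤ 2 * k → 2 * k ≤ n → 0 ≤ alpha n k x) ∧
    (∀ k : ℕ, 2 * k ≤ n - 1 → 0 ≤ beta n k x) := by
  intro n _ x
  exact ⟨fun k _ hk => alpha_nonneg n k x hk, fun k hk => beta_nonneg n k x (by omega)⟩

end Pool.Agent.Results.MP_6eafb7_an.AllPositive
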